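import Pool.Agent.V11311.PM.D

/-! Random trajectories meet high, part E: tuples of integers. -/

set_option autoImplicit false

namespace Pool.Agent.V11311.PM

open Finset Filter Topology Pool.Agent.V11311.PD Pool.Agent.V11311.PL

open Pool.Agent.Helper894.Collatz (T od period lt_pow sum_pow_od)

/-- the tuples whose trajectories have a common term in the window -/
def TS (k x N : ℕ) : Set (Fin k → ℕ) :=
  {v | (∀ i, 0 < v i ∧ v i ≤ N) ∧ ∃ m, x < m ∧ m ≤ 2 * x ∧ ∀ i, Vis (v i) m}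

theorem TS_fin (k x N : ℕ) : (TS k x N).Finite := by
  classical
  apply (Fintype.piFinset (fun _ : Fin k => Icc 1 N)).finite_toSet.subset
  intro v hv
  rw [mem_coe, Fintype.mem_piFinset]
  intro i
  rw [mem_Icc]
  exact hv.1 i

theorem TS_card {k x : ℕ} (hk : 2 ≤ k) (hx : 1 ≤ x) (N : ℕ) : ∑ u ∈ GF x, pc (2 ^ 20 * u) N ^ k ≤ (TS k x N).ncard := by
  classical
  have hGF : ∀ u ∈ GF x, GU x u := by
    intro u hu
    unfold GF at hu
    exact (mem_filter.1 hu).2
  have h1 : ∀ u : ℕ, pc (2 ^ 20 * u) N ^ k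
      = (Fintype.piFinset (fun _ : Fin k => (Icc 1 N).filter fun n => Vis n (2 ^ 20 * u))).card := by
    intro u
    rw [Fintype.card_piFinset_const]
    unfold pc
    rfl
  rw [sum_congr rfl fun u _ => h1 u, ← card_biUnion, ← Set.ncard_coe_finset]
  · apply Set.ncard_le_ncard _ (TS_fin k x N)
    intro v hv
    rw [mem_coe, mem_biUnion] at hv
    obtain ⟨u, hu, hv⟩ := hv
    rw [Fintype.mem_piFinset] at hv
    have g := hGF u hu
    refine ⟨fun i => ?_, 2 ^ 20 * u, g.1, g.2.1, fun i => (mem_filter.1 (hv i)).2⟩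
    have := (mem_filter.1 (hv i)).1
    rw [mem_Icc] at this
    exact this
  · intro u hu v hv huv
    rw [Function.onFun, disjoint_left]
    intro w h2 h3
    rw [Fintype.mem_piFinset] at h2 h3
    have g2 := (mem_filter.1 (h2 ⟨0, by omega⟩)).2
    have g3 := (mem_filter.1 (h3 ⟨0, by omega⟩)).2
    exact huv ((hGF u hu).disj hx (hGF v hv) g2 g3)

theorem main {k : ℕ} (hk : 2 ≤ k) (B : ℝ) : ∀ᶠ x : ℕ in atTop, ∀ᶠ N : ℕ in atTop,
    B / (x : ℝ) ^ (k - 1) * (N : ℝ) ^ k ≤ ((TS k x N).ncard : ℝ) := by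
  choose D hD using Pool.Agent.V11311.PD.dens_exists
  have hD' : IsD D := hD
  filter_upwards [low_pow hD' hk (B + 1), eventually_ge_atTop 1] with x h1 h2
  have hx0 : (0 : ℝ) < x := by
    have : 0 < x := h2
    exact_mod_cast this
  have h3 : B / (x : ℝ) ^ (k - 1) < ∑ u ∈ GF x, D (2 ^ 20 * u) ^ k := by
    refine lt_of_lt_of_le ?_ h1
    exact div_lt_div_of_pos_right (by linarith) (by positivity)
  have h4 : Tendsto (fun N : ℕ => ∑ u ∈ GF x, ((pc (2 ^ 20 * u) N : ℝ) / N) ^ k) atTop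
      (𝓝 (∑ u ∈ GF x, D (2 ^ 20 * u) ^ k)) := tendsto_finsetSum _ fun u _ => (hD'.lim _).pow k
  filter_upwards [h4.eventually (lt_mem_nhds h3), eventually_ge_atTop 1] with N h5 h6
  have hN0 : (0 : ℝ) < N := by
    have : 0 < N := h6
    exact_mod_cast this
  have h7 : ∑ u ∈ GF x, ((pc (2 ^ 20 * u) N : ℝ) / N) ^ k = ((∑ u ∈ GF x, pc (2 ^ 20 * u) N ^ k : ℕ) : ℝ) / (N : ℝ) ^ k := by
    push_cast
    rw [sum_div]
    exact sum_congr rfl fun u _ => div_pow _ _ _
  rw [h7, lt_div_iff₀ (by positivity)] at h5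
  have h8 : ((∑ u ∈ GF x, pc (2 ^ 20 * u) N ^ k : ℕ) : ℝ) ≤ ((TS k x N).ncard : ℝ) := by
    exact_mod_cast TS_card hk h2 N
  exact h5.le.trans h8

end Pool.Agent.V11311.PM
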