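import Pool.Agent.V11311.PL.F

/-! Random trajectories meet high, part A: few integers of a class have a large term at an early time. -/

set_option autoImplicit false

namespace Pool.Agent.V11311.PM

open Finset Filter Topology Pool.Agent.V11311.PD Pool.Agent.V11311.PL

open Pool.Agent.Helper894.Collatz (T od period lt_pow sum_pow_od)

theorem od_mod (i u : ℕ) : od i u = od i (u % 2 ^ i) := by
  have h := (period i (u % 2 ^ i) (u / 2 ^ i)).2.1
  rw [Nat.mod_add_div] at h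
  exact h

theorem T_le {i u : ℕ} (h : 2 ^ i ≤ u) : ((T^[i] u : ℕ) : ℝ) ≤ 3 ^ od i u * (2 * u / 2 ^ i) := by
  have h1 : u < 2 ^ i * (u / 2 ^ i + 1) := Nat.lt_mul_div_succ u (by positivity)
  have h2 := lt_pow i u _ h1
  have h3 : ((T^[i] u : ℕ) : ℝ) ≤ 3 ^ od i u * (((u / 2 ^ i : ℕ) : ℝ) + 1) := by exact_mod_cast h2.le
  refine h3.trans ?_
  apply mul_le_mul_of_nonneg_left _ (by positivity)
  have h4 : ((u / 2 ^ i : ℕ) : ℝ) ≤ (u : ℝ) / 2 ^ i := by
    have := @Nat.cast_div_le ℝ _ _ _ u (2 ^ i)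
    push_cast at this
    exact this
  have h5 : (1 : ℝ) ≤ (u : ℝ) / 2 ^ i := by
    rw [le_div_iff₀ (by positivity), one_mul]
    exact_mod_cast h
  calc _ ≤ (u : ℝ) / 2 ^ i + (u : ℝ) / 2 ^ i := add_le_add h4 h5
    _ = _ := by ring

/-- the residues with many odd steps -/
noncomputable def Ri (i : ℕ) : Finset ℕ := by
  classical exact (range (2 ^ i)).filter fun v => (2 : ℝ) ^ (i + 18) < 3 ^ od i v

theorem sqrt3 : (1 + Real.sqrt 3) ≤ 1.94 * Real.sqrt 2 := by
  have h2 : 0 ≤ Real.sqrt 2 := Real.sqrt_nonneg 2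
  have h3 : 0 ≤ Real.sqrt 3 := Real.sqrt_nonneg 3
  have e2 : Real.sqrt 2 ^ 2 = 2 := Real.sq_sqrt (by norm_num)
  have e3 : Real.sqrt 3 ^ 2 = 3 := Real.sq_sqrt (by norm_num)
  have a2 : 1.4142 ≤ Real.sqrt 2 := by
    rw [Real.le_sqrt' (by norm_num)]; norm_num
  have a3 : Real.sqrt 3 ≤ 1.7321 := by
    rw [Real.sqrt_le_left (by norm_num)]; norm_num
  nlinarith

theorem Ri_card (i : ℕ) : ((Ri i).card : ℝ) ≤ 1.94 ^ i / 512 := by
  classical
  have h1 := sum_pow_od i (Real.sqrt 3)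
  have h2 : ∑ v ∈ Ri i, Real.sqrt 3 ^ od i v ≤ (1 + Real.sqrt 3) ^ i := by
    rw [← h1]
    apply sum_le_sum_of_subset_of_nonneg
    · unfold Ri; exact filter_subset _ _
    · intro v _ _; positivity
  have h3 : ((Ri i).card : ℝ) * (Real.sqrt 2 ^ i * 512) ≤ ∑ v ∈ Ri i, Real.sqrt 3 ^ od i v := by
    rw [← nsmul_eq_mul]
    apply card_nsmul_le_sum
    intro v hv
    unfold Ri at hv
    rw [mem_filter] at hv
    have h4 : (Real.sqrt 2 ^ i * 512) ^ 2 ≤ (Real.sqrt 3 ^ od i v) ^ 2 := by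
      rw [mul_pow, ← pow_mul, ← pow_mul, mul_comm i 2, mul_comm _ 2, pow_mul, pow_mul,
        Real.sq_sqrt (by norm_num), Real.sq_sqrt (by norm_num)]
      have := hv.2.le
      rw [pow_add] at this
      norm_num at this ⊢
      exact this
    exact (pow_le_pow_iff_left₀ (by positivity) (by positivity) (by norm_num)).1 h4
  have h5 : (1 + Real.sqrt 3) ^ i ≤ 1.94 ^ i * Real.sqrt 2 ^ i := by
    rw [← mul_pow]
    exact pow_le_pow_left₀ (by positivity) sqrt3 i
  have hs : 0 < Real.sqrt 2 ^ i := by positivity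
  have h6 : ((Ri i).card : ℝ) * 512 * Real.sqrt 2 ^ i ≤ 1.94 ^ i * Real.sqrt 2 ^ i := by
    calc _ = ((Ri i).card : ℝ) * (Real.sqrt 2 ^ i * 512) := by ring
      _ ≤ _ := h3.trans (h2.trans h5)
  have h7 := le_of_mul_le_mul_right h6 hs
  rw [le_div_iff₀ (by norm_num)]
  exact h7

/-- counting in a class modulo `M` and a class modulo `2 ^ i` -/
theorem class_card {M : ℕ} (_hM : 0 < M) (hM2 : Nat.Coprime M 2) (i U c r : ℕ) :
    ((Icc 1 U).filter fun u => u % M = c ∧ u % 2 ^ i = r).card ≤ U / (M * 2 ^ i) + 1 := by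
  classical
  have hco : Nat.Coprime M (2 ^ i) := hM2.pow_right i
  rw [← card_range (U / (M * 2 ^ i) + 1)]
  apply card_le_card_of_injOn (fun u => u / (M * 2 ^ i))
  · intro u hu
    have hu := mem_coe.1 hu
    rw [mem_filter, mem_Icc] at hu
    apply mem_coe.2
    rw [mem_range, Nat.lt_succ_iff]
    exact Nat.div_le_div_right hu.1.2
  · intro u hu v hv huv
    have hu := mem_coe.1 hu
    have hv := mem_coe.1 hv
    rw [mem_filter] at hu hv
    have h1 : u ≡ v [MOD M] := by rw [Nat.ModEq, hu.2.1, hv.2.1]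
    have h2 : u ≡ v [MOD 2 ^ i] := by rw [Nat.ModEq, hu.2.2, hv.2.2]
    have h3 : u ≡ v [MOD M * 2 ^ i] := (Nat.modEq_and_modEq_iff_modEq_mul hco).1 ⟨h1, h2⟩
    have huv' : u / (M * 2 ^ i) = v / (M * 2 ^ i) := huv
    rw [← Nat.mod_add_div u (M * 2 ^ i), ← Nat.mod_add_div v (M * 2 ^ i), h3, huv']

open scoped Classical in
/-- the integers up to `U` of a class with an early large term -/
noncomputable def Ev (M c U L : ℕ) : Finset ℕ :=
  (Icc 1 U).filter fun u => u % M = c ∧ ∃ i ≤ L, 2 ^ i ≤ u ∧ 2 ^ 19 * u < T^[i] u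

theorem Ev_card {M : ℕ} (hM : 0 < M) (hM2 : Nat.Coprime M 2) (c U L : ℕ) :
    ((Ev M c U L).card : ℝ) ≤ (U : ℝ) / (15 * M) + 2 ^ (L + 1) := by
  classical
  have hMR : (0 : ℝ) < M := by exact_mod_cast hM
  have hsub : Ev M c U L ⊆ (range (L + 1)).biUnion fun i => (Ri i).biUnion fun r =>
      (Icc 1 U).filter fun u => u % M = c ∧ u % 2 ^ i = r := by
    intro u hu
    unfold Ev at hu
    rw [mem_filter] at hu
    obtain ⟨h1, h2, i, hi, h3, h4⟩ := hu
    rw [mem_biUnion]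
    refine ⟨i, mem_range.2 (by omega), ?_⟩
    rw [mem_biUnion]
    refine ⟨u % 2 ^ i, ?_, ?_⟩
    · unfold Ri
      rw [mem_filter, mem_range]
      refine ⟨Nat.mod_lt _ (by positivity), ?_⟩
      rw [← od_mod]
      have h5 := T_le h3
      have h6 : (2 : ℝ) ^ 19 * u < ((T^[i] u : ℕ) : ℝ) := by exact_mod_cast h4
      have h7 := h6.trans_le h5
      have hu0 : (0 : ℝ) < u := by
        rw [mem_Icc] at h1
        have : 0 < u := by omega
        exact_mod_cast this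
      have hp : (0 : ℝ) < 2 ^ i := by positivity
      have h8 : (2 : ℝ) ^ 19 * u * 2 ^ i < 3 ^ od i u * (2 * u) := by
        have := mul_lt_mul_of_pos_right h7 hp
        rwa [mul_assoc ((3 : ℝ) ^ od i u), div_mul_cancel₀ _ hp.ne'] at this
      have h9 : (2 : ℝ) ^ (i + 18) * (2 * u) < 3 ^ od i u * (2 * u) := by
        calc (2 : ℝ) ^ (i + 18) * (2 * u) = (2 : ℝ) ^ 19 * u * 2 ^ i := by rw [pow_add]; ring
          _ < _ := h8
      exact lt_of_mul_lt_mul_right h9 (by positivity)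
    · rw [mem_filter]
      exact ⟨h1, h2, rfl⟩
  have h1 : ((Ev M c U L).card : ℝ) ≤ ∑ i ∈ range (L + 1), ∑ r ∈ Ri i, ((U : ℝ) / (M * 2 ^ i) + 1) := by
    have h2 : (Ev M c U L).card ≤ ∑ i ∈ range (L + 1), ∑ r ∈ Ri i,
        ((Icc 1 U).filter fun u => u % M = c ∧ u % 2 ^ i = r).card := by
      refine (card_le_card hsub).trans (card_biUnion_le.trans (sum_le_sum fun i _ => card_biUnion_le))
    have h3 : ((Ev M c U L).card : ℝ) ≤ ∑ i ∈ range (L + 1), ∑ r ∈ Ri i,
        (((Icc 1 U).filter fun u => u % M = c ∧ u % 2 ^ i = r).card : ℝ) := by exact_mod_cast h2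
    refine h3.trans (sum_le_sum fun i _ => sum_le_sum fun r _ => ?_)
    have h4 := class_card hM hM2 i U c r
    have h5 : (((Icc 1 U).filter fun u => u % M = c ∧ u % 2 ^ i = r).card : ℝ) ≤ ((U / (M * 2 ^ i) : ℕ) : ℝ) + 1 := by
      exact_mod_cast h4
    refine h5.trans (add_le_add ?_ le_rfl)
    have := @Nat.cast_div_le ℝ _ _ _ U (M * 2 ^ i)
    push_cast at this
    exact this
  refine h1.trans ?_
  have h2 : ∀ i ∈ range (L + 1), ∑ r ∈ Ri i, ((U : ℝ) / (M * 2 ^ i) + 1)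
      ≤ (U : ℝ) / M / 512 * 0.97 ^ i + 2 ^ i := by
    intro i _
    rw [sum_const, nsmul_eq_mul]
    have h3 := Ri_card i
    have hp : (0 : ℝ) < 2 ^ i := by positivity
    have h4 : (1.94 : ℝ) ^ i = 0.97 ^ i * 2 ^ i := by rw [← mul_pow]; norm_num
    calc ((Ri i).card : ℝ) * ((U : ℝ) / (M * 2 ^ i) + 1)
        ≤ 1.94 ^ i / 512 * ((U : ℝ) / (M * 2 ^ i) + 1) := mul_le_mul_of_nonneg_right h3 (by positivity)
      _ = (U : ℝ) / M / 512 * 0.97 ^ i + 1.94 ^ i / 512 := by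
          rw [h4]
          field_simp
      _ ≤ (U : ℝ) / M / 512 * 0.97 ^ i + 2 ^ i := by
          apply add_le_add le_rfl
          have h5 : (1.94 : ℝ) ^ i ≤ 2 ^ i := pow_le_pow_left₀ (by norm_num) (by norm_num) i
          have h6 : (0 : ℝ) < 1.94 ^ i := by positivity
          linarith
  refine (sum_le_sum h2).trans ?_
  rw [sum_add_distrib, ← mul_sum]
  apply add_le_add
  · have h3 : ∑ i ∈ range (L + 1), (0.97 : ℝ) ^ i ≤ 100 / 3 := by
      rw [geom_sum_eq (by norm_num)]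
      have : (0 : ℝ) < 0.97 ^ (L + 1) := by positivity
      rw [div_le_iff_of_neg (by norm_num)]
      linarith
    have h4 : 0 ≤ (U : ℝ) / M / 512 := by positivity
    calc (U : ℝ) / M / 512 * ∑ i ∈ range (L + 1), (0.97 : ℝ) ^ i ≤ (U : ℝ) / M / 512 * (100 / 3) :=
          mul_le_mul_of_nonneg_left h3 h4
      _ ≤ (U : ℝ) / (15 * M) := by
          have h5 : (U : ℝ) / (15 * M) = (U : ℝ) / M / 512 * (512 / 15) := by field_simp
          rw [h5]
          exact mul_le_mul_of_nonneg_left (by norm_num) h4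
  · rw [geom_sum_eq (by norm_num)]
    have : (0 : ℝ) < 2 ^ (L + 1) := by positivity
    norm_num

end Pool.Agent.V11311.PM
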