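import Pool.Agent.V11311.PM.A

/-! Random trajectories meet high, part B: the good integers. -/

set_option autoImplicit false

namespace Pool.Agent.V11311.PM

open Finset Filter Topology Pool.Agent.V11311.PD Pool.Agent.V11311.PL

open Pool.Agent.Helper894.Collatz (T od period lt_pow sum_pow_od)

open Pool.Agent.H377R2 (iter_pos)

open Pool.Agent.H319R2.Lln (mu mu_lower mu_upper mu_eq)

/-- the good integers `u` of the window: `2 ^ 20 u` is in `(x, 2x]` -/
def GU (x u : ℕ) : Prop := x < 2 ^ 20 * u ∧ 2 ^ 20 * u ≤ 2 * x ∧ 2 ^ 20 * u ∈ Gs ∧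
  Typ (1 / 100) ((x : ℝ) ^ (1 / 4 : ℝ)) u ∧ ∀ i ≤ Nat.log 2 x / 2, T^[i] u ≤ 2 ^ 19 * u

theorem T_pow_le {j u : ℕ} (hj : j ≤ 20) : T^[j] (2 ^ 20 * u) = 2 ^ (20 - j) * u := by
  have h : (2 : ℕ) ^ 20 * u = 2 ^ j * (2 ^ (20 - j) * u) := by
    rw [← mul_assoc, ← pow_add]
    congr 2
    omega
  rw [h, T_two_pow]

theorem log_half {x k : ℕ} (hx : 1 ≤ x) (hk : Nat.log 2 x / 2 < k) : Real.log x ≤ 2 * Real.log 2 * k := by
  have h1 : x < 2 ^ (Nat.log 2 x + 1) := Nat.lt_pow_succ_log_self (by norm_num) x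
  have h2 : Nat.log 2 x + 1 ≤ 2 * k := by omega
  have h3 : x ≤ 2 ^ (2 * k) := h1.le.trans (Nat.pow_le_pow_right (by norm_num) h2)
  have h4 : (x : ℝ) ≤ 2 ^ (2 * k) := by exact_mod_cast h3
  have h5 := Real.log_le_log (by exact_mod_cast hx) h4
  rw [Real.log_pow] at h5
  push_cast at h5
  linarith

/-- a good integer does not return to the window before it is small -/
theorem GU.back {x u : ℕ} (hx : 1 ≤ x) (h : GU x u) {k : ℕ} (hk : 1 ≤ k) (h1 : x < T^[k] (2 ^ 20 * u)) :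
    ∃ b k' : ℕ, k' ≤ k ∧ T^[k'] (2 ^ 20 * u) = b ∧ 0 < b ∧ (b : ℝ) ≤ (x : ℝ) ^ (1 / 4 : ℝ) := by
  obtain ⟨g1, g2, g3, ⟨m0, g4, g5⟩, g6⟩ := h
  have hu : 0 < u := by
    rcases Nat.eq_zero_or_pos u with rfl | h
    · omega
    · exact h
  have hux : u ≤ x := by omega
  have hkk : 20 + m0 < k := by
    by_contra hcon
    push Not at hcon
    rcases le_or_gt k 20 with h2 | h2
    · rw [T_pow_le h2] at h1
      have h3 : 2 ^ (20 - k) * u ≤ 2 ^ 19 * u :=
        Nat.mul_le_mul_right _ (Nat.pow_le_pow_right (by norm_num) (by omega))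
      omega
    · obtain ⟨k1, rfl⟩ : ∃ k1, k = k1 + 20 := ⟨k - 20, by omega⟩
      rw [Function.iterate_add_apply, T_two_pow] at h1
      rcases le_or_gt k1 (Nat.log 2 x / 2) with h3 | h3
      · have := g6 k1 h3
        omega
      · have h4 := g5 k1 (by omega)
        have h5 := log_half hx h3
        have h6 := (abs_le.1 h4).2
        have h7 : Real.log u ≤ Real.log x := Real.log_le_log (by exact_mod_cast hu) (by exact_mod_cast hux)
        have h8 := mu_lower
        have h9 : (0 : ℝ) ≤ k1 := Nat.cast_nonneg _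
        have h10 : 0 ≤ Real.log u := Real.log_natCast_nonneg u
        have h11 : 7 / 34 * Real.log 2 * k1 ≤ mu * k1 := mul_le_mul_of_nonneg_right h8 h9
        have h12 : Real.log (T^[k1] u : ℕ) ≤ Real.log u := by nlinarith
        have h13 : 0 < T^[k1] u := iter_pos hu k1
        have h14 := (Real.log_le_log_iff (by exact_mod_cast h13) (by exact_mod_cast hu)).1 h12
        have h15 : T^[k1] u ≤ u := by exact_mod_cast h14
        omega
  refine ⟨T^[m0] u, 20 + m0, hkk.le, ?_, iter_pos hu m0, g4⟩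
  rw [add_comm, Function.iterate_add_apply, T_two_pow]

/-- the trajectories through two good integers are different -/
theorem GU.disj {x u v n : ℕ} (hx : 1 ≤ x) (hu : GU x u) (hv : GU x v) (h1 : Vis n (2 ^ 20 * u))
    (h2 : Vis n (2 ^ 20 * v)) : u = v := by
  have key : ∀ u v : ℕ, GU x u → GU x v → ∀ a b : ℕ, a < b → T^[a] n = 2 ^ 20 * u → T^[b] n = 2 ^ 20 * v → False := by
    intro u v hu hv a b hab ha hb
    obtain ⟨k, rfl⟩ : ∃ k, b = k + a := ⟨b - a, by omega⟩
    rw [Function.iterate_add_apply, ha] at hb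
    obtain ⟨b0, k', hk', h3, h4, h5⟩ := hu.back hx (by omega : 1 ≤ k) (by rw [hb]; exact hv.1)
    have h6 : (b0 : ℝ) ≤ Real.sqrt ((2 ^ 20 * v : ℕ) : ℝ) := by
      refine h5.trans ?_
      rw [Real.sqrt_eq_rpow]
      have hx1 : (1 : ℝ) ≤ x := by exact_mod_cast hx
      have hxv : (x : ℝ) ≤ ((2 ^ 20 * v : ℕ) : ℝ) := by exact_mod_cast hv.1.le
      calc (x : ℝ) ^ (1 / 4 : ℝ) ≤ (x : ℝ) ^ (1 / 2 : ℝ) := Real.rpow_le_rpow_of_exponent_le hx1 (by norm_num)
        _ ≤ _ := Real.rpow_le_rpow (by linarith) hxv (by norm_num)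
    apply hv.2.2.1.2 b0 h4 h6 (k - k')
    rw [← h3, ← Function.iterate_add_apply, Nat.sub_add_cancel hk', hb]
  obtain ⟨a, ha⟩ := h1
  obtain ⟨b, hb⟩ := h2
  rcases lt_trichotomy a b with h | h | h
  · exact (key u v hu hv a b h ha hb).elim
  · subst h
    rw [ha] at hb
    omega
  · exact (key v u hv hu b a h hb ha).elim

/-- counting a class in an interval -/
theorem class_low {M : ℕ} (hM : 0 < M) {c : ℕ} (hc : c < M) (U1 U2 : ℕ) :
    (U2 - U1) / M ≤ ((Ioc U1 U2).filter fun u => u % M = c).card := by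
  classical
  set s := (c + (M - 1) * (U1 + 1)) % M with hs
  have hsM : s < M := Nat.mod_lt _ hM
  rw [← card_range ((U2 - U1) / M)]
  apply card_le_card_of_injOn (fun t => U1 + 1 + s + t * M)
  · intro t ht
    have ht := mem_range.1 (mem_coe.1 ht)
    apply mem_coe.2
    rw [mem_filter, mem_Ioc]
    have h1 : (t + 1) * M ≤ (U2 - U1) / M * M := Nat.mul_le_mul_right _ ht
    have h2 := Nat.div_mul_le_self (U2 - U1) M
    have h3 : (t + 1) * M = t * M + M := by ring
    change (U1 < U1 + 1 + s + t * M ∧ U1 + 1 + s + t * M ≤ U2) ∧ (U1 + 1 + s + t * M) % M = c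
    refine ⟨⟨by omega, by omega⟩, ?_⟩
    rw [Nat.add_mul_mod_self_right, hs, Nat.add_mod, Nat.mod_mod, ← Nat.add_mod]
    have h4 : U1 + 1 + (c + (M - 1) * (U1 + 1)) = c + M * (U1 + 1) := by
      obtain ⟨M', rfl⟩ : ∃ M', M = M' + 1 := ⟨M - 1, by omega⟩
      simp only [Nat.add_sub_cancel]
      ring
    rw [h4, Nat.add_mul_mod_self_left, Nat.mod_eq_of_lt hc]
  · intro t _ t' _ h
    have h' : U1 + 1 + s + t * M = U1 + 1 + s + t' * M := h
    have h1 : t * M = t' * M := by omega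
    exact Nat.eq_of_mul_eq_mul_right hM h1

end Pool.Agent.V11311.PM
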