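import Pool.Agent.V11311.PM.B

/-! Random trajectories meet high, part C: many good integers in every class modulo a power of 3. -/

set_option autoImplicit false

namespace Pool.Agent.V11311.PM

open Finset Filter Topology Pool.Agent.V11311.PD Pool.Agent.V11311.PL

open Pool.Agent.Helper894.Collatz (T od period lt_pow sum_pow_od)

open scoped Classical in
/-- the good integers -/
noncomputable def GF (x : ℕ) : Finset ℕ := (Icc 1 x).filter (GU x)

theorem GF_class {M : ℕ} (hM : 0 < M) (hM2 : Nat.Coprime M 2) : ∀ᶠ x : ℕ in atTop, ∀ c < M,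
    (x : ℝ) / (2 ^ 21 * M) ≤ (((GF x).filter fun u => u % M = c).card : ℝ) := by
  classical
  have hMR : (1 : ℝ) ≤ M := by exact_mod_cast hM
  have e1 := tendsto_natCast_atTop_atTop.eventually (typ_card (1 / 100) 1 (by norm_num) (by norm_num))
  have e2 := (zero_affine (fun a => a ∉ Gs) bad_zero (2 ^ 20) 0 (by norm_num)).eventually
    (ge_mem_nhds (by positivity : (0 : ℝ) < 1 / (2 ^ 20 * (20 * M))))
  have e3 : ∀ᶠ x : ℕ in atTop, 40 * 2 ^ 20 * (M : ℝ) ≤ Real.sqrt x :=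
    (Real.tendsto_sqrt_atTop.comp tendsto_natCast_atTop_atTop).eventually_ge_atTop _
  have e4 : ∀ᶠ x : ℕ in atTop, 40 * 2 ^ 20 * (M : ℝ) ≤ Real.log x :=
    (Real.tendsto_log_atTop.comp tendsto_natCast_atTop_atTop).eventually_ge_atTop _
  filter_upwards [e1, e2, e3, e4, eventually_ge_atTop (2 ^ 40)] with x h1 h2 h3 h4 h5
  intro c hc
  set L := Nat.log 2 x / 2 with hL
  set U1 := x / 2 ^ 20 with hU1
  set U2 := 2 * x / 2 ^ 20 with hU2
  have hx0 : (0 : ℝ) < x := by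
    have : 0 < x := by omega
    exact_mod_cast this
  have hL20 : 20 ≤ L := by
    have : 40 ≤ Nat.log 2 x := Nat.le_log_of_pow_le (by norm_num) h5
    omega
  have hLx : 2 ^ L * 2 ^ L ≤ x := by
    rw [← pow_add]
    have h6 : 2 ^ (L + L) ≤ 2 ^ Nat.log 2 x := Nat.pow_le_pow_right (by norm_num) (by omega)
    exact h6.trans (Nat.pow_log_le_self 2 (by omega))
  set A := (Ioc U1 U2).filter fun u => u % M = c with hA
  set NT := (Icc 1 x).filter fun u => ¬ Typ (1 / 100) ((x : ℝ) ^ (1 / 4 : ℝ)) u with hNT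
  set NG := (Icc 1 x).filter fun i => 2 ^ 20 * i + 0 ∉ Gs with hNG
  have hsub : A ⊆ ((GF x).filter fun u => u % M = c) ∪ (Ev M c U2 L ∪ (NT ∪ NG)) := by
    intro u hu
    rw [hA, mem_filter, mem_Ioc] at hu
    obtain ⟨⟨g1, g2⟩, g3⟩ := hu
    have g4 : x < 2 ^ 20 * u := by
      have := (Nat.div_lt_iff_lt_mul (by norm_num : 0 < 2 ^ 20)).1 g1
      omega
    have g5 : 2 ^ 20 * u ≤ 2 * x := by
      have := (Nat.le_div_iff_mul_le (by norm_num : 0 < 2 ^ 20)).1 g2
      omega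
    have g6 : 1 ≤ u := by omega
    have g7 : u ≤ x := by omega
    rw [mem_union, mem_union, mem_union]
    by_cases k1 : 2 ^ 20 * u ∈ Gs
    · by_cases k2 : Typ (1 / 100) ((x : ℝ) ^ (1 / 4 : ℝ)) u
      · by_cases k3 : ∀ i ≤ L, T^[i] u ≤ 2 ^ 19 * u
        · left
          rw [mem_filter]
          unfold GF
          rw [mem_filter, mem_Icc]
          exact ⟨⟨⟨g6, g7⟩, g4, g5, k1, k2, k3⟩, g3⟩
        · right; left
          push Not at k3
          obtain ⟨i, hi, k4⟩ := k3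
          unfold Ev
          rw [mem_filter, mem_Icc]
          refine ⟨⟨g6, g2⟩, g3, i, hi, ?_, k4⟩
          have k5 : 2 ^ i ≤ 2 ^ L := Nat.pow_le_pow_right (by norm_num) hi
          have k6 : 2 ^ 20 ≤ 2 ^ L := Nat.pow_le_pow_right (by norm_num) hL20
          have k7 : 2 ^ 20 * 2 ^ L ≤ 2 ^ L * 2 ^ L := Nat.mul_le_mul_right _ k6
          omega
      · right; right; left
        rw [hNT, mem_filter, mem_Icc]
        exact ⟨⟨g6, g7⟩, k2⟩
    · right; right; right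
      rw [hNG, mem_filter, mem_Icc]
      exact ⟨⟨g6, g7⟩, k1⟩
  have c0 : (A.card : ℝ) ≤ (((GF x).filter fun u => u % M = c).card : ℝ) + ((Ev M c U2 L).card + (NT.card + NG.card)) := by
    have := (card_le_card hsub).trans ((card_union_le _ _).trans (Nat.add_le_add_left ((card_union_le _ _).trans
      (Nat.add_le_add_left (card_union_le _ _) _)) _))
    exact_mod_cast this
  have c1 : (x : ℝ) / 2 ^ 20 / M - 2 ≤ (A.card : ℝ) := by
    have k1 := class_low hM hc U1 U2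
    have k2 : ((x : ℝ) / 2 ^ 20 - 1) ≤ ((U2 - U1 : ℕ) : ℝ) := by
      have k3 : x + 1 ≤ 2 ^ 20 * (U2 - U1 + 1) := by omega
      have k4 : (x : ℝ) + 1 ≤ 2 ^ 20 * (((U2 - U1 : ℕ) : ℝ) + 1) := by exact_mod_cast k3
      have k5 : (x : ℝ) / 2 ^ 20 ≤ ((U2 - U1 : ℕ) : ℝ) + 1 := by
        rw [div_le_iff₀ (by positivity)]
        linarith
      linarith
    have k3 : ((U2 - U1 : ℕ) : ℝ) / M ≤ (((U2 - U1) / M : ℕ) : ℝ) + 1 := by
      rw [div_le_iff₀ (by linarith)]
      have k4 := Nat.lt_mul_div_succ (U2 - U1) hM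
      have k5 : U2 - U1 ≤ ((U2 - U1) / M + 1) * M := by
        rw [mul_comm]; exact k4.le
      exact_mod_cast k5
    have k4 : (((U2 - U1) / M : ℕ) : ℝ) ≤ (A.card : ℝ) := by exact_mod_cast k1
    have k5 : ((x : ℝ) / 2 ^ 20 - 1) / M ≤ ((U2 - U1 : ℕ) : ℝ) / M := by gcongr
    have k6 : (x : ℝ) / 2 ^ 20 / M - 1 ≤ ((x : ℝ) / 2 ^ 20 - 1) / M := by
      rw [sub_div]
      have : 1 / (M : ℝ) ≤ 1 := by rw [div_le_iff₀ (by linarith)]; linarith
      linarith
    linarith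
  have c2 : ((Ev M c U2 L).card : ℝ) ≤ 2 / 15 * ((x : ℝ) / 2 ^ 20 / M) + 2 * Real.sqrt x := by
    have k1 := Ev_card hM hM2 c U2 L
    have k2 : (U2 : ℝ) ≤ 2 * x / 2 ^ 20 := by
      rw [le_div_iff₀ (by positivity)]
      have : U2 * 2 ^ 20 ≤ 2 * x := Nat.div_mul_le_self _ _
      exact_mod_cast this
    have k3 : (2 : ℝ) ^ L ≤ Real.sqrt x := by
      rw [Real.le_sqrt' (by positivity), sq]
      exact_mod_cast hLx
    have k4 : (U2 : ℝ) / (15 * M) ≤ 2 / 15 * ((x : ℝ) / 2 ^ 20 / M) := by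
      calc (U2 : ℝ) / (15 * M) ≤ (2 * x / 2 ^ 20) / (15 * M) := by gcongr
        _ = _ := by field_simp
    have k5 : (2 : ℝ) ^ (L + 1) = 2 * 2 ^ L := by ring
    linarith
  have c3 : (NT.card : ℝ) ≤ 2 * (x / Real.log x) := by
    have k1 := h1 NT (fun n hn => by
      rw [hNT, mem_filter, mem_Icc] at hn
      exact ⟨hn.1.1, by exact_mod_cast hn.1.2, hn.2⟩)
    rwa [Real.rpow_one] at k1
  have c4 : (NG.card : ℝ) ≤ (x : ℝ) / 2 ^ 20 / M * (1 / 20) := by
    have k1 : cnt (fun i => 2 ^ 20 * i + 0 ∉ Gs) x = (NG.card : ℝ) := by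
      unfold cnt
      rw [hNG]
      congr!
    rw [k1, div_le_iff₀ hx0] at h2
    refine h2.trans (le_of_eq ?_)
    field_simp
  have c5 : 2 * Real.sqrt x ≤ (x : ℝ) / 2 ^ 20 / M * (1 / 20) := by
    have hs := Real.sq_sqrt hx0.le
    have hs0 : 0 ≤ Real.sqrt x := Real.sqrt_nonneg _
    rw [div_div, div_mul_div_comm, mul_one, le_div_iff₀ (by positivity)]
    nlinarith
  have hlog : 0 < Real.log x := by nlinarith
  have c6 : 2 * (x / Real.log x) ≤ (x : ℝ) / 2 ^ 20 / M * (1 / 20) := by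
    rw [div_div, div_mul_div_comm, mul_one, mul_div_assoc', div_le_div_iff₀ hlog (by positivity)]
    nlinarith
  have c7 : 2 ≤ (x : ℝ) / 2 ^ 20 / M * (1 / 20) := by
    have : (1 : ℝ) ≤ Real.sqrt x := by nlinarith
    linarith
  have c8 : (x : ℝ) / (2 ^ 21 * M) = (x : ℝ) / 2 ^ 20 / M * (1 / 2) := by
    field_simp
  rw [c8]
  linarith

end Pool.Agent.V11311.PM
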