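import Pool.Agent.V11311.PM.C

/-! Random trajectories meet high, part D: the sum of the powers of the densities. -/

set_option autoImplicit false

namespace Pool.Agent.V11311.PM

open Finset Filter Topology Pool.Agent.V11311.PD Pool.Agent.V11311.PL

open Pool.Agent.Helper894.Collatz (T od period lt_pow sum_pow_od)

/-- sums over the good integers of periodic functions -/
theorem sum_per {F : ℕ → ℝ} (hF0 : ∀ a, 0 ≤ F a) {m : ℕ} (hF : ∀ a, F (a + 3 ^ m) = F a) :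
    ∀ᶠ x : ℕ in atTop, (x : ℝ) / 2 ^ 21 * ((∑ c ∈ range (3 ^ m), F c) / (3 ^ m : ℕ)) ≤
      ∑ u ∈ GF x, F (2 ^ 20 * u) := by
  classical
  have hM : 0 < 3 ^ m := by positivity
  have hM2 : Nat.Coprime (3 ^ m) 2 := Nat.Coprime.pow_left _ (by decide)
  filter_upwards [GF_class hM hM2] with x hx
  have hper : Function.Periodic F (3 ^ m) := hF
  rw [← sum_fiberwise_of_maps_to (s := GF x) (t := range (3 ^ m)) (g := fun u => u % 3 ^ m)
    (fun u _ => mem_range.2 (Nat.mod_lt _ hM))]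
  have h1 : ∀ c ∈ range (3 ^ m), (x : ℝ) / (2 ^ 21 * (3 ^ m : ℕ)) * F (2 ^ 20 * c + 0)
      ≤ ∑ u ∈ (GF x).filter (fun u => u % 3 ^ m = c), F (2 ^ 20 * u) := by
    intro c hc
    have h2 : ∀ u ∈ (GF x).filter (fun u => u % 3 ^ m = c), F (2 ^ 20 * u) = F (2 ^ 20 * c + 0) := by
      intro u hu
      rw [mem_filter] at hu
      rw [add_zero, ← hu.2]
      have h3 : 2 ^ 20 * u = 2 ^ 20 * (u % 3 ^ m) + 2 ^ 20 * (u / 3 ^ m) * 3 ^ m := by
        conv_lhs => rw [← Nat.mod_add_div u (3 ^ m)]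
        ring
      rw [h3]
      exact hper.nat_mul _ _
    rw [sum_congr rfl h2, sum_const, nsmul_eq_mul]
    apply mul_le_mul_of_nonneg_right _ (hF0 _)
    exact hx c (mem_range.1 hc)
  refine le_trans (le_of_eq ?_) (sum_le_sum h1)
  rw [← mul_sum, sum_affine hM hF (by
    apply Nat.Coprime.pow_left
    exact Nat.Coprime.pow_right _ (by decide)) 0]
  rw [div_mul_div_comm, div_mul_eq_mul_div]

theorem sum_inj_le {F : ℕ → ℝ} (hF0 : ∀ a, 0 ≤ F a) (x : ℕ) :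
    ∑ u ∈ GF x, F (2 ^ 20 * u) ≤ ∑ a ∈ Icc 1 (2 * x), F a := by
  classical
  have hinj : Set.InjOn (fun u => 2 ^ 20 * u) (GF x : Set ℕ) := by
    intro i _ j _ h
    simp only at h
    omega
  rw [← sum_image (f := F) hinj]
  apply sum_le_sum_of_subset_of_nonneg
  · intro a ha
    rw [mem_image] at ha
    obtain ⟨u, hu, rfl⟩ := ha
    unfold GF at hu
    rw [mem_filter, mem_Icc] at hu
    rw [mem_Icc]
    exact ⟨by omega, hu.2.2.1⟩
  · intro a _ _; exact hF0 a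

/-- the sum of the squares of the densities is not `O (1 / x)` -/
theorem low_sq {D : ℕ → ℝ} (hD : IsD D) (B : ℝ) : ∀ᶠ x : ℕ in atTop, B / x ≤ ∑ u ∈ GF x, D (2 ^ 20 * u) ^ 2 := by
  classical
  obtain ⟨C, hLP⟩ := wG_LP hD
  have hC := hLP.C0
  obtain ⟨c, hc, hlow'⟩ := D_lower
  have hlow := hlow' D hD
  have hex : ∀ R : ℝ, ∃ I : ℝ, 0 < R → (∀ m : ℕ, 1 ≤ m → |Mm gk (phi R) m - I| ≤ (3 * (2 * R) * C + 1) / m) ∧
      ∀ α β : ℕ, 1 ≤ α → α ≤ 2 → β ≤ 1 →
      Tendsto (fun N : ℕ => (∑ i ∈ Icc 1 N, phi R (wG D (α * i + β))) / N) atTop (𝓝 I) := by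
    intro R
    by_cases hR : 0 < R
    · obtain ⟨I, hI⟩ := hLP.exists_I (f := phi R) (L := 2 * R) (by positivity) (phi_lip hR)
      exact ⟨I, fun _ => hI⟩
    · exact ⟨0, fun h => absurd h hR⟩
  choose s hs using hex
  have hSQ : SQ D s := fun R hR α β h1 h2 h3 => (hs R hR).2 α β h1 h2 h3
  obtain ⟨R, hR, hsR⟩ := s_unbounded hD hc hlow hSQ (2 ^ 23 * B + 1)
  obtain ⟨m, hm⟩ : ∃ m : ℕ, 3 * (2 * R) * C + 1 + 2 ^ 23 * (R * C) ≤ m := exists_nat_ge _
  have hm1 : 1 ≤ m := by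
    have h1 : (1 : ℝ) ≤ m := by
      have : 0 ≤ 3 * (2 * R) * C := by positivity
      have : 0 ≤ 2 ^ 23 * (R * C) := by positivity
      linarith
    exact_mod_cast h1
  have hm0 : (0 : ℝ) < m := by exact_mod_cast hm1
  have hMm := (hs R hR).1 m hm1
  have e1 := sum_per (F := fun a => phi R (gk m a)) (fun a => phi_nonneg hR _) (m := m) (fun a => by rw [gk_per])
  have e2 : ∀ᶠ x : ℕ in atTop, ∑ a ∈ Icc 1 (2 * x), |wG D a - gk m a| ≤ C / m * (2 * x : ℕ) := by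
    have h2 : Tendsto (fun x : ℕ => 2 * x) atTop atTop := tendsto_atTop_mono (fun x => by show x ≤ 2 * x; omega) tendsto_id
    exact h2.eventually (hLP.app m hm1)
  filter_upwards [e1, e2, eventually_ge_atTop 1] with x h1 h2 h3
  have hx0 : (0 : ℝ) < x := by
    have : 0 < x := h3
    exact_mod_cast this
  have h4 := sum_inj_le (F := fun a => |wG D a - gk m a|) (fun a => abs_nonneg _) x
  have h5 : ∑ u ∈ GF x, phi R (gk m (2 ^ 20 * u)) - 2 * R * (C / m * (2 * x : ℕ))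
      ≤ ∑ u ∈ GF x, phi R (wG D (2 ^ 20 * u)) := by
    have h6 : ∑ u ∈ GF x, phi R (gk m (2 ^ 20 * u)) - ∑ u ∈ GF x, phi R (wG D (2 ^ 20 * u))
        ≤ 2 * R * ∑ u ∈ GF x, |wG D (2 ^ 20 * u) - gk m (2 ^ 20 * u)| := by
      rw [← sum_sub_distrib, mul_sum]
      apply sum_le_sum
      intro u _
      have := phi_lip hR (gk m (2 ^ 20 * u)) (wG D (2 ^ 20 * u))
      rw [abs_sub_comm (gk m _)] at this
      exact (le_abs_self _).trans this
    have h7 : 2 * R * ∑ u ∈ GF x, |wG D (2 ^ 20 * u) - gk m (2 ^ 20 * u)| ≤ 2 * R * (C / m * (2 * x : ℕ)) :=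
      mul_le_mul_of_nonneg_left (h4.trans h2) (by positivity)
    exact sub_le_comm.1 (h6.trans h7)
  have h8 : ∑ u ∈ GF x, phi R (wG D (2 ^ 20 * u)) ≤ 4 * (x : ℝ) ^ 2 * ∑ u ∈ GF x, D (2 ^ 20 * u) ^ 2 := by
    rw [mul_sum]
    apply sum_le_sum
    intro u hu
    unfold GF at hu
    rw [mem_filter] at hu
    obtain ⟨_, g1, g2, g3, _⟩ := hu
    refine (phi_le_sq hR _).trans ?_
    rw [wG_of g3, mul_pow]
    apply mul_le_mul_of_nonneg_right _ (sq_nonneg _)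
    have g4 : ((2 ^ 20 * u : ℕ) : ℝ) ≤ 2 * x := by exact_mod_cast g2
    have g5 : (0 : ℝ) ≤ ((2 ^ 20 * u : ℕ) : ℝ) := Nat.cast_nonneg _
    nlinarith
  have h9 : s R - (3 * (2 * R) * C + 1) / m ≤ Mm gk (phi R) m := by
    have := (abs_le.1 hMm).1
    linarith
  have h10 : (3 * (2 * R) * C + 1) / m + 2 ^ 23 * (R * C) / m ≤ 1 := by
    rw [← add_div, div_le_one hm0]
    exact hm
  have h11 : (x : ℝ) / 2 ^ 21 * Mm gk (phi R) m ≤ ∑ u ∈ GF x, phi R (gk m (2 ^ 20 * u)) := h1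
  have h12 : (x : ℝ) / 2 ^ 21 * (s R - (3 * (2 * R) * C + 1) / m) ≤ (x : ℝ) / 2 ^ 21 * Mm gk (phi R) m :=
    mul_le_mul_of_nonneg_left h9 (by positivity)
  have h13 : 2 * R * (C / m * (2 * x : ℕ)) = (x : ℝ) / 2 ^ 21 * (2 ^ 23 * (R * C) / m) := by
    push_cast
    ring
  have h14 : (x : ℝ) / 2 ^ 21 * (2 ^ 23 * B) ≤ 4 * (x : ℝ) ^ 2 * ∑ u ∈ GF x, D (2 ^ 20 * u) ^ 2 := by
    have h15 : (x : ℝ) / 2 ^ 21 * (2 ^ 23 * B) ≤ (x : ℝ) / 2 ^ 21 * (s R - (3 * (2 * R) * C + 1) / m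
        - 2 ^ 23 * (R * C) / m) := by
      apply mul_le_mul_of_nonneg_left _ (by positivity)
      linarith
    have h16 : (x : ℝ) / 2 ^ 21 * (s R - (3 * (2 * R) * C + 1) / m - 2 ^ 23 * (R * C) / m)
        = (x : ℝ) / 2 ^ 21 * (s R - (3 * (2 * R) * C + 1) / m) - (x : ℝ) / 2 ^ 21 * (2 ^ 23 * (R * C) / m) := by ring
    refine h15.trans ?_
    rw [h16, ← h13]
    exact (sub_le_sub_right (h12.trans h11) _).trans (h5.trans h8)
  rw [div_le_iff₀ hx0]
  have h17 : (x : ℝ) / 2 ^ 21 * (2 ^ 23 * B) = 4 * x * B := by ring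
  rw [h17] at h14
  have h18 : 4 * (x : ℝ) ^ 2 * ∑ u ∈ GF x, D (2 ^ 20 * u) ^ 2 = 4 * x * ((∑ u ∈ GF x, D (2 ^ 20 * u) ^ 2) * x) := by ring
  rw [h18] at h14
  exact le_of_mul_le_mul_left h14 (by positivity)

/-- the densities at the good integers add up to at most one -/
theorem sum_le_one {D : ℕ → ℝ} (hD : IsD D) {x : ℕ} (hx : 1 ≤ x) : ∑ u ∈ GF x, D (2 ^ 20 * u) ≤ 1 := by
  classical
  have h1 : Tendsto (fun N : ℕ => ∑ u ∈ GF x, (pc (2 ^ 20 * u) N : ℝ) / N) atTop (𝓝 (∑ u ∈ GF x, D (2 ^ 20 * u))) :=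
    tendsto_finsetSum _ fun u _ => hD.lim _
  apply le_of_tendsto h1
  filter_upwards [eventually_ge_atTop 1] with N hN
  have hN0 : (0 : ℝ) < N := by
    have : 0 < N := hN
    exact_mod_cast this
  rw [← sum_div, div_le_one hN0]
  have h2 : ∑ u ∈ GF x, pc (2 ^ 20 * u) N ≤ N := by
    unfold pc
    rw [← card_biUnion]
    · calc _ ≤ (Icc 1 N).card := card_le_card (by
            intro n hn
            rw [mem_biUnion] at hn
            obtain ⟨u, _, hu⟩ := hn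
            exact (mem_filter.1 hu).1)
        _ = N := by simp
    · intro u hu v hv huv
      rw [Function.onFun, disjoint_left]
      intro n h3 h4
      rw [mem_filter] at h3 h4
      have g1 : GU x u := by
        have := mem_coe.1 hu
        unfold GF at this
        exact (mem_filter.1 this).2
      have g2 : GU x v := by
        have := mem_coe.1 hv
        unfold GF at this
        exact (mem_filter.1 this).2
      exact huv (g1.disj hx g2 h3.2 h4.2)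
  exact_mod_cast h2

/-- higher powers -/
theorem low_pow {D : ℕ → ℝ} (hD : IsD D) {k : ℕ} (hk : 2 ≤ k) (B : ℝ) :
    ∀ᶠ x : ℕ in atTop, B / (x : ℝ) ^ (k - 1) ≤ ∑ u ∈ GF x, D (2 ^ 20 * u) ^ k := by
  obtain ⟨j, rfl⟩ : ∃ j, k = j + 2 := ⟨k - 2, by omega⟩
  filter_upwards [low_sq hD (max B 1), eventually_ge_atTop 1] with x h1 h2
  have hx0 : (0 : ℝ) < x := by
    have : 0 < x := h2
    exact_mod_cast this
  set S := ∑ u ∈ GF x, D (2 ^ 20 * u) with hS
  set Q := ∑ u ∈ GF x, D (2 ^ 20 * u) ^ 2 with hQ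
  have hS1 : S ≤ 1 := sum_le_one hD h2
  have hB1 : 1 ≤ max B 1 := le_max_right _ _
  have hQ0 : 0 < Q := lt_of_lt_of_le (by positivity) h1
  have hd : ∀ u ∈ GF x, 0 ≤ D (2 ^ 20 * u) := fun u _ => hD.nonneg _
  have hS0 : 0 < S := by
    rcases (sum_nonneg hd).lt_or_eq with h | h
    · exact h
    · exfalso
      have h3 := (sum_eq_zero_iff_of_nonneg hd).1 h.symm
      have h4 : Q = 0 := sum_eq_zero fun u hu => by rw [h3 u hu]; norm_num
      linarith
  -- the power mean inequality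
  have h3 := Real.pow_arith_mean_le_arith_mean_pow (GF x) (fun u => D (2 ^ 20 * u) / S) (fun u => D (2 ^ 20 * u))
    (fun u hu => div_nonneg (hd u hu) hS0.le) (by rw [← sum_div]; exact div_self hS0.ne') hd (j + 1)
  have h4 : ∑ u ∈ GF x, D (2 ^ 20 * u) / S * D (2 ^ 20 * u) = Q / S := by
    rw [hQ, sum_div]
    apply sum_congr rfl
    intro u _
    ring
  have h5 : ∑ u ∈ GF x, D (2 ^ 20 * u) / S * D (2 ^ 20 * u) ^ (j + 1) = (∑ u ∈ GF x, D (2 ^ 20 * u) ^ (j + 2)) / S := by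
    rw [sum_div]
    apply sum_congr rfl
    intro u _
    ring
  rw [h4, h5, le_div_iff₀ hS0] at h3
  refine le_trans ?_ h3
  have h6 : Q ≤ Q / S := by
    rw [le_div_iff₀ hS0]
    nlinarith
  have h7 : Q ^ (j + 1) ≤ (Q / S) ^ (j + 1) * S := by
    rw [div_pow, div_mul_eq_mul_div, le_div_iff₀ (by positivity), mul_comm (Q ^ (j + 1)) S,
      mul_comm (Q ^ (j + 1)) (S ^ (j + 1))]
    apply mul_le_mul_of_nonneg_right _ (by positivity)
    calc S ^ (j + 1) = S ^ j * S := pow_succ _ _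
      _ ≤ 1 * S := mul_le_mul_of_nonneg_right (pow_le_one₀ hS0.le hS1) hS0.le
      _ = S := one_mul S
  refine le_trans ?_ h7
  show B / (x : ℝ) ^ (j + 1) ≤ Q ^ (j + 1)
  calc B / (x : ℝ) ^ (j + 1) ≤ (max B 1) ^ (j + 1) / (x : ℝ) ^ (j + 1) := by
        apply div_le_div_of_nonneg_right _ (by positivity)
        calc B ≤ max B 1 := le_max_left _ _
          _ = (max B 1) ^ 1 := (pow_one _).symm
          _ ≤ (max B 1) ^ (j + 1) := pow_le_pow_right₀ hB1 (by omega)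
    _ = (max B 1 / x) ^ (j + 1) := by rw [div_pow]
    _ ≤ Q ^ (j + 1) := pow_le_pow_left₀ (by positivity) h1 _

end Pool.Agent.V11311.PM
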